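import Pool.Agent.EX91.Fin

/-!
Matroids without a minor isomorphic to the direct sum of two parallel pairs and a coloop.

* `NTP r E`: no such minor, in terms of a rank function, copies of one element being disregarded.
* `her_ntp`: `NTP` is hereditary.
* `star`: over every set `F`, two skew dependent sets (loopless mod `F`, without parallel elements) span.
* `PairPair M`: `M` has such a minor; `ntp_of_not`: blow-ups of a matroid without such a minor have `NTP`.
-/

set_option autoImplicit false

namespace Pool.Agent.EX91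

open Finset Pool.Agent.DT3 Pool.Agent.CF98 Pool.Agent.WD Pool.Agent.H94
open scoped Matroid

section

variable {α : Type*} [DecidableEq α]

/-- There are no two parallel pairs and a third element, independent over a set `A`; the two elements of a pair are not parallel
before the contraction of `A`. -/
def NTP (E : Finset α) (r : Finset α → ℕ) : Prop :=
  ∀ A ⊆ E, ∀ a ∈ E, ∀ a' ∈ E, ∀ b ∈ E, ∀ b' ∈ E, ∀ z ∈ E,
    r {a, a'} = 2 → r {b, b'} = 2 →
    r (insert a A) = r A + 1 → r (insert a' A) = r A + 1 → r (insert a (insert a' A)) = r A + 1 →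
    r (insert b A) = r A + 1 → r (insert b' A) = r A + 1 → r (insert b (insert b' A)) = r A + 1 →
    r (insert a (insert b (insert z A))) ≠ r A + 3

theorem her_ntp : Her (α := α) NTP := by
  constructor
  · intro E r f X hE hX h A hA a ha a' ha' b hb b' hb' z hz
    exact h A (hA.trans hX) a (hX ha) a' (hX ha') b (hX hb) b' (hX hb') z (hX hz)
  · intro E r f X hE hX h A hA a ha a' ha' b hb b' hb' z hz h1 h2 h3 h4 h5 h6 h7 h8 h9
    have hr := hE.rk
    have hm : ∀ Y : Finset α, r X ≤ r (Y ∪ X) := fun Y => hr.mono _ _ subset_union_right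
    have key : ∀ u v : α, r ({u, v} ∪ X) - r X = 2 → r {u, v} = 2 := by
      intro u v huv
      have s1 := hr.submod {u, v} X
      have s2 : r {u, v} ≤ 2 := by
        have t1 := hr.insert_le u {v}
        have t2 := hr.insert_le v ∅
        rw [hr.empty] at t2
        have t3 : insert v (∅ : Finset α) = {v} := rfl
        rw [t3] at t2
        omega
      have := hm {u, v}
      omega
    have hs : ∀ w ∈ E \ X, w ∈ E := fun w hw => (mem_sdiff.1 hw).1
    have hAX : A ∪ X ⊆ E := union_subset (hA.trans sdiff_subset) hX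
    simp only [insert_union] at h3 h4 h5 h6 h7 h8 h9
    have q0 := hm A
    have q1 : r X ≤ r (insert a (A ∪ X)) := hr.mono _ _ (subset_union_right.trans (subset_insert _ _))
    have q2 : r X ≤ r (insert a' (A ∪ X)) := hr.mono _ _ (subset_union_right.trans (subset_insert _ _))
    have q3 : r X ≤ r (insert b (A ∪ X)) := hr.mono _ _ (subset_union_right.trans (subset_insert _ _))
    have q4 : r X ≤ r (insert b' (A ∪ X)) := hr.mono _ _ (subset_union_right.trans (subset_insert _ _))
    refine h (A ∪ X) hAX a (hs a ha) a' (hs a' ha') b (hs b hb) b' (hs b' hb') z (hs z hz)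
      (key a a' h1) (key b b' h2) (by omega) (by omega) ?_ (by omega) (by omega) ?_ ?_
    · have := hr.mono _ _ (subset_insert a (insert a' (A ∪ X)))
      omega
    · have := hr.mono _ _ (subset_insert b (insert b' (A ∪ X)))
      omega
    · omega

/-- A minimal dependent subset over `F`. -/
private theorem Cls_min {r : Finset α → ℕ} (hr : RankFn r) {F D : Finset α}
    (hD : r (F ∪ D) < r F + D.card) :
    ∃ C ⊆ D, r (F ∪ C) < r F + C.card ∧ ∀ x ∈ C, r (F ∪ C.erase x) = r F + (C.erase x).card := by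
  classical
  obtain ⟨C, hC, hmin⟩ := (D.powerset.filter fun C => r (F ∪ C) < r F + C.card).exists_min_image
    card ⟨D, mem_filter.2 ⟨mem_powerset.2 Subset.rfl, hD⟩⟩
  rw [mem_filter, mem_powerset] at hC
  refine ⟨C, hC.1, hC.2, fun x hx => ?_⟩
  by_contra hne
  have hle : r (F ∪ C.erase x) ≤ r F + (C.erase x).card := by
    have key : ∀ S : Finset α, r (F ∪ S) ≤ r F + S.card := by
      intro S
      induction S using Finset.induction_on with
      | empty => simp
      | insert y S hy ih =>
        have h1 : F ∪ insert y S = insert y (F ∪ S) := by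
          rw [union_insert]
        rw [h1, card_insert_of_notMem hy]
        have := hr.insert_le y (F ∪ S)
        omega
    exact key _
  have hlt : r (F ∪ C.erase x) < r F + (C.erase x).card := by omega
  have := hmin (C.erase x) (mem_filter.2 ⟨mem_powerset.2 ((erase_subset _ _).trans hC.1), hlt⟩)
  have h2 := card_erase_lt_of_mem hx
  omega

private theorem Cls_pair {r : Finset α → ℕ} (hr : RankFn r) {F D : Finset α}
    (hD : r (F ∪ D) < r F + D.card) (hl : ∀ x ∈ D, r (insert x F) = r F + 1) :
    ∃ C ⊆ D, ∃ a ∈ D, ∃ a' ∈ D, a ≠ a' ∧ a ∉ C ∧ a' ∉ C ∧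
      r (insert a (F ∪ C)) = r (F ∪ C) + 1 ∧ r (insert a' (F ∪ C)) = r (F ∪ C) + 1 ∧
      r (insert a (insert a' (F ∪ C))) = r (F ∪ C) + 1 := by
  obtain ⟨C, hCD, hC, hC'⟩ := Cls_min hr hD
  have h0 : C.Nonempty := by
    rw [nonempty_iff_ne_empty]
    rintro rfl
    simp at hC
  obtain ⟨a, ha⟩ := h0
  have h1 : (C.erase a).Nonempty := by
    rw [nonempty_iff_ne_empty]
    intro h
    have h2 : C = {a} := by
      rw [← insert_erase ha, h]
      rfl
    rw [h2, card_singleton] at hC
    have h3 : F ∪ {a} = insert a F := by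
      rw [union_comm]
      rfl
    rw [h3, hl a (hCD ha)] at hC
    omega
  obtain ⟨a', ha'⟩ := h1
  have hne : a ≠ a' := fun h => (ne_of_mem_erase ha') h.symm
  have ha'C : a' ∈ C := mem_of_mem_erase ha'
  have haC' : a ∈ C.erase a' := mem_erase.2 ⟨hne, ha⟩
  set K := (C.erase a).erase a' with hK
  have k1 : insert a' K = C.erase a := insert_erase ha'
  have k2 : insert a K = C.erase a' := by
    rw [hK, erase_right_comm]
    exact insert_erase haC'
  have k3 : insert a (insert a' K) = C := by
    rw [k1]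
    exact insert_erase ha
  have u1 : insert a' (F ∪ K) = F ∪ C.erase a := by
    rw [← union_insert, k1]
  have u2 : insert a (F ∪ K) = F ∪ C.erase a' := by
    rw [← union_insert, k2]
  have u3 : insert a (insert a' (F ∪ K)) = F ∪ C := by
    rw [← union_insert, ← union_insert, k3]
  have e1 := hC' a ha
  have e2 := hC' a' ha'C
  have c1 := card_erase_of_mem ha
  have c2 := card_erase_of_mem ha'C
  have c3 : K.card = (C.erase a).card - 1 := card_erase_of_mem ha'
  have c4 : 0 < C.card := card_pos.2 ⟨a, ha⟩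
  have c5 : 0 < (C.erase a).card := card_pos.2 ⟨a', ha'⟩
  have s1 : r (F ∪ K) ≤ r F + K.card := by
    have key : ∀ S : Finset α, r (F ∪ S) ≤ r F + S.card := by
      intro S
      induction S using Finset.induction_on with
      | empty => simp
      | insert y S hy ih =>
        have h1 : F ∪ insert y S = insert y (F ∪ S) := by
          rw [union_insert]
        rw [h1, card_insert_of_notMem hy]
        have := hr.insert_le y (F ∪ S)
        omega
    exact key K
  have s2 := hr.insert_le a' (F ∪ K)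
  have s3 : r (F ∪ C.erase a) ≤ r (F ∪ C) := hr.mono _ _ (union_subset_union_right (erase_subset _ _))
  rw [u1] at s2
  refine ⟨K, ((erase_subset _ _).trans (erase_subset _ _)).trans hCD, a, hCD ha, a', hCD ha'C, hne,
    ?_, ?_, ?_, ?_, ?_⟩
  · intro h
    exact (notMem_erase a C) (mem_of_mem_erase h)
  · exact notMem_erase a' _
  · rw [u2]
    omega
  · rw [u1]
    omega
  · rw [u3]
    omega

private theorem Cls_e5 (F C₁ C₂ : Finset α) (a a' : α) :
    insert a (insert a' (F ∪ C₁ ∪ C₂)) = F ∪ insert a (insert a' C₁) ∪ C₂ := by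
  ext w
  simp only [mem_union, mem_insert]
  tauto

private theorem Cls_e6 (F C₁ C₂ : Finset α) (b b' : α) :
    insert b (insert b' (F ∪ C₁ ∪ C₂)) = F ∪ C₁ ∪ insert b (insert b' C₂) := by
  ext w
  simp only [mem_union, mem_insert]
  tauto

private theorem Cls_e7 (F C₁ C₂ : Finset α) (a b : α) :
    insert a (insert b (F ∪ C₁ ∪ C₂)) = F ∪ insert a C₁ ∪ insert b C₂ := by
  ext w
  simp only [mem_union, mem_insert]
  tauto

private theorem Cls_w6 (A : Finset α) (a b z : α) :
    insert a (insert b (insert z A)) = insert z (insert a (insert b A)) := by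
  ext w
  simp only [mem_insert]
  tauto

/-- An element outside the span. -/
private theorem Cls_out {r : Finset α → ℕ} (hr : RankFn r) {E G : Finset α} (hG : G ⊆ E)
    (hlt : r G < r E) : ∃ z ∈ E, r (insert z G) = r G + 1 := by
  by_contra hcon
  push Not at hcon
  have key : ∀ S ⊆ E, r (G ∪ S) = r G := by
    intro S
    induction S using Finset.induction_on with
    | empty => simp
    | insert y S hy ih =>
      intro hS
      have i1 := ih ((subset_insert _ _).trans hS)
      have i2 : r (insert y G) = r G := by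
        have j1 := hcon y (hS (mem_insert_self _ _))
        have j2 := hr.insert_le y G
        have j3 := hr.mono _ _ (subset_insert y G)
        omega
      have i3 := hr.submod (insert y G) (G ∪ S)
      have i4 : insert y G ∪ (G ∪ S) = G ∪ insert y S := by
        ext w
        simp only [mem_union, mem_insert]
        tauto
      have i5 : r G ≤ r (insert y G ∩ (G ∪ S)) := by
        refine hr.mono _ _ ?_
        intro w hw
        exact mem_inter.2 ⟨mem_insert_of_mem hw, mem_union_left _ hw⟩
      have i6 : r G ≤ r (G ∪ insert y S) := hr.mono _ _ subset_union_left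
      rw [i4] at i3
      omega
  have k1 := key E Subset.rfl
  rw [union_eq_right.2 hG] at k1
  omega

/-- Skewness is inherited by subsets. -/
private theorem Cls_sk {r : Finset α → ℕ} (hr : RankFn r) {F D₁ D₂ : Finset α}
    (hs : r (F ∪ D₁ ∪ D₂) + r F = r (F ∪ D₁) + r (F ∪ D₂)) :
    ∀ X ⊆ D₁, ∀ Y ⊆ D₂, r (F ∪ X ∪ Y) + r F = r (F ∪ X) + r (F ∪ Y) := by
  intro X hX Y hY
  have m1 := hr.submod (F ∪ X) (F ∪ Y)
  have m2 : r F ≤ r ((F ∪ X) ∩ (F ∪ Y)) := by
    refine hr.mono _ _ ?_
    intro w hw
    exact mem_inter.2 ⟨mem_union_left _ hw, mem_union_left _ hw⟩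
  have m3 : (F ∪ X) ∪ (F ∪ Y) = F ∪ X ∪ Y := by
    ext w
    simp only [mem_union]
    tauto
  rw [m3] at m1
  -- F ∪ D₁ ∪ Y
  have m4 := hr.submod (F ∪ X ∪ Y) (F ∪ D₁)
  have m5 : (F ∪ X ∪ Y) ∪ (F ∪ D₁) = F ∪ D₁ ∪ Y := by
    ext w
    simp only [mem_union]
    constructor
    · rintro (((h | h) | h) | (h | h))
      · exact Or.inl (Or.inl h)
      · exact Or.inl (Or.inr (hX h))
      · exact Or.inr h
      · exact Or.inl (Or.inl h)
      · exact Or.inl (Or.inr h)
    · tauto
  have m6 : r (F ∪ X) ≤ r ((F ∪ X ∪ Y) ∩ (F ∪ D₁)) := by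
    refine hr.mono _ _ ?_
    intro w hw
    rcases mem_union.1 hw with h | h
    · exact mem_inter.2 ⟨mem_union_left _ (mem_union_left _ h), mem_union_left _ h⟩
    · exact mem_inter.2 ⟨mem_union_left _ (mem_union_right _ h), mem_union_right _ (hX h)⟩
  rw [m5] at m4
  have m7 := hr.submod (F ∪ D₁ ∪ Y) (F ∪ D₂)
  have m8 : (F ∪ D₁ ∪ Y) ∪ (F ∪ D₂) = F ∪ D₁ ∪ D₂ := by
    ext w
    simp only [mem_union]
    constructor
    · rintro (((h | h) | h) | (h | h))
      · exact Or.inl (Or.inl h)
      · exact Or.inl (Or.inr h)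
      · exact Or.inr (hY h)
      · exact Or.inl (Or.inl h)
      · exact Or.inr h
    · tauto
  have m9 : r (F ∪ Y) ≤ r ((F ∪ D₁ ∪ Y) ∩ (F ∪ D₂)) := by
    refine hr.mono _ _ ?_
    intro w hw
    rcases mem_union.1 hw with h | h
    · exact mem_inter.2 ⟨mem_union_left _ (mem_union_left _ h), mem_union_left _ h⟩
    · exact mem_inter.2 ⟨mem_union_right _ h, mem_union_right _ (hY h)⟩
  rw [m8] at m7
  omega

/-- Two skew dependent sets over `F` span. -/
theorem star {r : Finset α → ℕ} {E F D₁ D₂ : Finset α} (hr : RankFn r) (hn : NTP E r)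
    (hF : F ⊆ E) (h1 : D₁ ⊆ E) (h2 : D₂ ⊆ E)
    (hd1 : r (F ∪ D₁) < r F + D₁.card) (hd2 : r (F ∪ D₂) < r F + D₂.card)
    (hl1 : ∀ x ∈ D₁, r (insert x F) = r F + 1) (hl2 : ∀ x ∈ D₂, r (insert x F) = r F + 1)
    (hp1 : ∀ x ∈ D₁, ∀ y ∈ D₁, x ≠ y → r {x, y} = 2)
    (hp2 : ∀ x ∈ D₂, ∀ y ∈ D₂, x ≠ y → r {x, y} = 2)
    (hs : r (F ∪ D₁ ∪ D₂) + r F = r (F ∪ D₁) + r (F ∪ D₂)) :
    r (F ∪ D₁ ∪ D₂) = r E := by
  obtain ⟨C₁, hC₁, a, ha, a', ha', hne, haC, haC', p1, p2, p3⟩ := Cls_pair hr hd1 hl1
  obtain ⟨C₂, hC₂, b, hb, b', hb', hne', hbC, hbC', p4, p5, p6⟩ := Cls_pair hr hd2 hl2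
  have hsk := Cls_sk hr (F := F) (D₁ := D₁) (D₂ := D₂) hs
  by_contra hne2
  have hsub : F ∪ D₁ ∪ D₂ ⊆ E := union_subset (union_subset hF h1) h2
  have hlt : r (F ∪ D₁ ∪ D₂) < r E := lt_of_le_of_ne (hr.mono _ _ hsub) hne2
  -- an element outside the span
  obtain ⟨z, hz, hzr⟩ := Cls_out hr hsub hlt
  set A := F ∪ C₁ ∪ C₂ with hA
  have hAE : A ⊆ E := union_subset (union_subset hF (hC₁.trans h1)) (hC₂.trans h2)
  have hAs : r A + r F = r (F ∪ C₁) + r (F ∪ C₂) := hsk C₁ hC₁ C₂ hC₂
  have i1 : insert a C₁ ⊆ D₁ := insert_subset ha hC₁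
  have i1' : insert a' C₁ ⊆ D₁ := insert_subset ha' hC₁
  have i2 : insert b C₂ ⊆ D₂ := insert_subset hb hC₂
  have i2' : insert b' C₂ ⊆ D₂ := insert_subset hb' hC₂
  have i3 : insert a (insert a' C₁) ⊆ D₁ := insert_subset ha i1'
  have i4 : insert b (insert b' C₂) ⊆ D₂ := insert_subset hb i2'
  have g1 := hsk _ i1 _ hC₂
  have g2 := hsk _ i1' _ hC₂
  have g3 := hsk _ hC₁ _ i2
  have g4 := hsk _ hC₁ _ i2'
  have g5 := hsk _ i3 _ hC₂
  have g6 := hsk _ hC₁ _ i4
  have g7 := hsk _ i1 _ i2
  have e1 : insert a A = F ∪ insert a C₁ ∪ C₂ := by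
    rw [hA, union_insert, insert_union]
  have e2 : insert a' A = F ∪ insert a' C₁ ∪ C₂ := by
    rw [hA, union_insert, insert_union]
  have e3 : insert b A = F ∪ C₁ ∪ insert b C₂ := by
    rw [hA, union_insert]
  have e4 : insert b' A = F ∪ C₁ ∪ insert b' C₂ := by
    rw [hA, union_insert]
  have e5 : insert a (insert a' A) = F ∪ insert a (insert a' C₁) ∪ C₂ := Cls_e5 F C₁ C₂ a a'
  have e6 : insert b (insert b' A) = F ∪ C₁ ∪ insert b (insert b' C₂) := Cls_e6 F C₁ C₂ b b'
  have e7 : insert a (insert b A) = F ∪ insert a C₁ ∪ insert b C₂ := Cls_e7 F C₁ C₂ a b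
  have f1 : F ∪ insert a C₁ = insert a (F ∪ C₁) := union_insert _ _ _
  have f2 : F ∪ insert a' C₁ = insert a' (F ∪ C₁) := union_insert _ _ _
  have f3 : F ∪ insert b C₂ = insert b (F ∪ C₂) := union_insert _ _ _
  have f4 : F ∪ insert b' C₂ = insert b' (F ∪ C₂) := union_insert _ _ _
  have f5 : F ∪ insert a (insert a' C₁) = insert a (insert a' (F ∪ C₁)) := by
    rw [union_insert, union_insert]
  have f6 : F ∪ insert b (insert b' C₂) = insert b (insert b' (F ∪ C₂)) := by
    rw [union_insert, union_insert]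
  rw [f1, p1] at g1
  rw [f2, p2] at g2
  rw [f3, p4] at g3
  rw [f4, p5] at g4
  rw [f5, p3] at g5
  rw [f6, p6] at g6
  rw [f1, p1, f3, p4] at g7
  rw [← f1, ← e1] at g1
  rw [← f2, ← e2] at g2
  rw [← e3] at g3
  rw [← e4] at g4
  rw [← f5, ← e5] at g5
  rw [← e6] at g6
  rw [← f1, ← e7] at g7
  refine hn A hAE a (h1 ha) a' (h1 ha') b (h2 hb) b' (h2 hb') z hz (hp1 a ha a' ha' hne)
    (hp2 b hb b' hb' hne') (by omega) (by omega) (by omega) (by omega) (by omega) (by omega) ?_
  -- the third element
  have w1 : insert a (insert b A) ⊆ F ∪ D₁ ∪ D₂ := by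
    refine insert_subset (mem_union_left _ (mem_union_right _ ha)) (insert_subset
      (mem_union_right _ hb) ?_)
    exact union_subset_union (union_subset_union Subset.rfl hC₁) hC₂
  have w2 := hr.submod (insert z (insert a (insert b A))) (F ∪ D₁ ∪ D₂)
  have w3 : insert z (insert a (insert b A)) ∪ (F ∪ D₁ ∪ D₂) = insert z (F ∪ D₁ ∪ D₂) := by
    rw [insert_union, union_eq_right.2 w1]
  have w4 : r (insert a (insert b A)) ≤ r (insert z (insert a (insert b A)) ∩ (F ∪ D₁ ∪ D₂)) := by
    refine hr.mono _ _ ?_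
    exact subset_inter (subset_insert _ _) w1
  have w5 := hr.insert_le z (insert a (insert b A))
  have w6 : insert a (insert b (insert z A)) = insert z (insert a (insert b A)) := Cls_w6 A a b z
  rw [w3] at w2
  rw [w6]
  omega

end

section

variable {α : Type*}

/-- `M` has a minor isomorphic to `U₁,₂ ⊕ U₁,₂ ⊕ U₁,₁`: after the contraction of a set `C` there are two pairs of parallel
elements `a, a'` and `b, b'` and an element `z` such that `a, b, z` are independent. -/
def PairPair (M : Matroid α) : Prop :=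
  ∃ (C : Set α) (a a' b b' z : α), a ≠ a' ∧ b ≠ b' ∧ a ≠ b ∧ z ≠ a ∧ z ≠ b ∧
    (M ／ C).IsCircuit {a, a'} ∧ (M ／ C).IsCircuit {b, b'} ∧ (M ／ C).Indep {a, b, z}

/-- The rank of a finite set is the rank function of the blow-up. -/
private theorem Cls_coe (M : Matroid α) (Y : Finset α) :
    ((rkFn M Y : ℕ) : ℕ∞) = M.eRk (Y : Set α) := by
  unfold rkFn
  apply ENat.natCast_toNat
  have h1 := M.eRk_le_encard (Y : Set α)
  have h2 : (Y : Set α).encard ≠ ⊤ := by
    rw [Set.encard_ne_top_iff]
    exact Y.finite_toSet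
  exact ne_top_of_le_ne_top h2 h1

private theorem Cls_indep [DecidableEq α] {M : Matroid α} {C S : Finset α} (hd : Disjoint C S)
    (hC : (C : Set α) ⊆ M.E) (hS : (S : Set α) ⊆ M.E) :
    (M ／ (C : Set α)).Indep (S : Set α) ↔ rkFn M (C ∪ S) = rkFn M C + S.card := by
  obtain ⟨I, hI⟩ := M.exists_isBasis (C : Set α) hC
  have hIf : I.Finite := (Finset.finite_toSet C).subset hI.subset
  have h1 : rkFn M C = I.ncard := by
    have h2 := Cls_coe M C
    rw [← hI.encard_eq_eRk, ← hIf.cast_ncard_eq] at h2
    exact_mod_cast h2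
  rw [hI.contract_indep_iff]
  have hdis : Disjoint (S : Set α) (C : Set α) := by
    rw [Set.disjoint_left]
    intro x hx hx'
    exact (Finset.disjoint_left.1 hd) (Finset.mem_coe.1 hx') (Finset.mem_coe.1 hx)
  have hdI : Disjoint (S : Set α) I := hdis.mono_right hI.subset
  have h3 : M.eRk (((C ∪ S : Finset α)) : Set α) = M.eRk ((S : Set α) ∪ I) := by
    rw [Finset.coe_union]
    apply le_antisymm
    · have h4 : (C : Set α) ∪ S ⊆ M.closure ((S : Set α) ∪ I) := by
        apply Set.union_subset
        · exact hI.subset_closure.trans (M.closure_subset_closure Set.subset_union_right)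
        · exact Set.subset_union_left.trans
            (M.subset_closure _ (Set.union_subset hS (hI.subset.trans hC)))
      calc M.eRk ((C : Set α) ∪ S) ≤ M.eRk (M.closure ((S : Set α) ∪ I)) := M.eRk_mono h4
        _ = M.eRk ((S : Set α) ∪ I) := M.eRk_closure_eq _
    · apply M.eRk_mono
      apply Set.union_subset Set.subset_union_right
      exact hI.subset.trans Set.subset_union_left
  have h5 := Cls_coe M (C ∪ S)
  rw [h3] at h5
  have hfin : ((S : Set α) ∪ I).Finite := S.finite_toSet.union hIf
  have h6 : ((S : Set α) ∪ I).encard = ((S.card + I.ncard : ℕ) : ℕ∞) := by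
    rw [Set.encard_union_eq hdI, Set.encard_coe_eq_coe_finsetCard, ← hIf.cast_ncard_eq]
    push_cast
    rfl
  constructor
  · rintro ⟨h7, -⟩
    rw [h7.eRk_eq_encard, h6] at h5
    have h8 : rkFn M (C ∪ S) = S.card + I.ncard := by exact_mod_cast h5
    omega
  · intro h7
    refine ⟨?_, hdis.symm⟩
    rw [Matroid.indep_iff_eRk_eq_encard_of_finite hfin, h6, ← h5]
    exact_mod_cast (by omega : rkFn M (C ∪ S) = S.card + I.ncard)

open scoped Classical in
private theorem Cls_ground (M : Matroid α) (X : Finset α) :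
    rkFn M (X.filter (fun x => x ∈ M.E)) = rkFn M X := by
  have h1 := Cls_coe M (X.filter (fun x => x ∈ M.E))
  have h2 := Cls_coe M X
  have h3 : ((X.filter (fun x => x ∈ M.E) : Finset α) : Set α) = (X : Set α) ∩ M.E := by
    ext x
    simp
  rw [h3, Matroid.eRk_inter_ground, ← h2] at h1
  exact_mod_cast h1

private theorem Cls_mem [DecidableEq α] {M : Matroid α} {C : Finset α} {x : α}
    (h : rkFn M (insert x C) = rkFn M C + 1) : x ∈ M.E ∧ x ∉ C := by
  classical
  constructor
  · by_contra hx
    have h1 := Cls_ground M (insert x C)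
    have h2 := Cls_ground M C
    rw [filter_insert, if_neg hx, h2] at h1
    omega
  · intro hx
    rw [insert_eq_of_mem hx] at h
    omega

/-- Two parallel elements over `C` that are not equal. -/
private theorem Cls_circ [DecidableEq α] {M : Matroid α} {C : Finset α} (hC : (C : Set α) ⊆ M.E)
    {a a' : α} (hne : a ≠ a') (h1 : rkFn M (insert a C) = rkFn M C + 1)
    (h2 : rkFn M (insert a' C) = rkFn M C + 1)
    (h3 : rkFn M (insert a (insert a' C)) = rkFn M C + 1) :
    (M ／ (C : Set α)).IsCircuit {a, a'} := by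
  obtain ⟨m1, n1⟩ := Cls_mem h1
  obtain ⟨m2, n2⟩ := Cls_mem h2
  have s1 : ∀ x ∈ M.E, x ∉ C → rkFn M (insert x C) = rkFn M C + 1 →
      (M ／ (C : Set α)).Indep {x} := by
    intro x hx hxC hr
    have k := (Cls_indep (M := M) (C := C) (S := {x}) (by simpa using hxC) hC (by simpa using hx)).2
    rw [coe_singleton] at k
    apply k
    have e : C ∪ {x} = insert x C := by
      rw [union_comm]
      rfl
    rw [e, hr, card_singleton]
  have s2 : ¬ (M ／ (C : Set α)).Indep {a, a'} := by
    intro hi
    have hdis : Disjoint C {a, a'} := by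
      rw [Finset.disjoint_left]
      intro x hx hx'
      rcases mem_insert.1 hx' with h | h
      · exact n1 (h ▸ hx)
      · exact n2 ((mem_singleton.1 h) ▸ hx)
    have k := (Cls_indep (M := M) (C := C) (S := {a, a'}) hdis hC (by
      intro x hx
      simp only [coe_insert, coe_singleton, Set.mem_insert_iff, Set.mem_singleton_iff] at hx
      rcases hx with rfl | rfl
      · exact m1
      · exact m2)).1
    rw [coe_insert, coe_singleton] at k
    have k1 := k hi
    have e : C ∪ {a, a'} = insert a (insert a' C) := by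
      ext x
      simp only [mem_union, mem_insert, mem_singleton]
      tauto
    rw [e, h3, card_pair hne] at k1
    omega
  rw [Matroid.isCircuit_iff_dep_forall_sdiff_singleton_indep]
  refine ⟨⟨s2, ?_⟩, ?_⟩
  · intro x hx
    rw [Matroid.contract_ground]
    rcases hx with rfl | hx
    · exact ⟨m1, fun h => n1 (mem_coe.1 h)⟩
    · rw [Set.mem_singleton_iff] at hx
      subst hx
      exact ⟨m2, fun h => n2 (mem_coe.1 h)⟩
  · intro e he
    rcases he with rfl | he
    · refine (s1 a' m2 n2 h2).subset ?_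
      rintro x ⟨hx, hx'⟩
      rcases hx with hx | hx
      · exact absurd hx hx'
      · exact hx
    · rw [Set.mem_singleton_iff] at he
      subst he
      refine (s1 a m1 n1 h1).subset ?_
      rintro x ⟨hx, hx'⟩
      rcases hx with hx | hx
      · exact hx
      · exact absurd hx hx'

/-- The blow-ups of a matroid without the minor have `NTP`. -/
theorem ntp_of_not [DecidableEq α] {M : Matroid α} (h : ¬ PairPair M) (E : Finset (α × ℕ)) :
    NTP E (rr M) := by
  classical
  intro A hA a ha a' ha' b hb b' hb' z hz h1 h2 h3 h4 h5 h6 h7 h8 h9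
  have hr := rkFn_rank M
  unfold rr at h1 h2 h3 h4 h5 h6 h7 h8 h9
  simp only [image_insert, image_singleton] at h1 h2 h3 h4 h5 h6 h7 h8 h9
  set C := A.image Prod.fst with hC
  set C₀ := C.filter (fun x => x ∈ M.E) with hC₀
  have hCE : (C₀ : Set α) ⊆ M.E := by
    intro x hx
    exact (mem_filter.1 (mem_coe.1 hx)).2
  have key : ∀ S : Finset α, (S : Set α) ⊆ M.E → rkFn M (C₀ ∪ S) = rkFn M (C ∪ S) := by
    intro S hS
    rw [← Cls_ground M (C ∪ S), filter_union]
    have e : S.filter (fun x => x ∈ M.E) = S := by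
      rw [filter_eq_self]
      intro x hx
      exact hS (mem_coe.2 hx)
    rw [e]
  have k0 : rkFn M C₀ = rkFn M C := Cls_ground M C
  have ins : ∀ x ∈ M.E, rkFn M (insert x C₀) = rkFn M (insert x C) := by
    intro x hx
    have := key {x} (by simpa using hx)
    rw [union_comm, union_comm C] at this
    exact this
  have ins2 : ∀ x ∈ M.E, ∀ y ∈ M.E,
      rkFn M (insert x (insert y C₀)) = rkFn M (insert x (insert y C)) := by
    intro x hx y hy
    have := key {x, y} (by
      intro w hw
      simp only [coe_insert, coe_singleton, Set.mem_insert_iff, Set.mem_singleton_iff] at hw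
      rcases hw with rfl | rfl
      · exact hx
      · exact hy)
    have e : ∀ D : Finset α, D ∪ {x, y} = insert x (insert y D) := by
      intro D
      ext w
      simp only [mem_union, mem_insert, mem_singleton]
      tauto
    rw [e, e] at this
    exact this
  have m1 := (Cls_mem h3).1
  have m2 := (Cls_mem h4).1
  have m3 := (Cls_mem h6).1
  have m4 := (Cls_mem h7).1
  have ne1 : a.1 ≠ a'.1 := by
    intro e
    rw [e] at h1
    have t2 := hr.insert_le a'.1 ∅
    rw [hr.empty] at t2
    have t3 : insert a'.1 (∅ : Finset α) = {a'.1} := rfl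
    rw [t3] at t2
    rw [pair_eq_singleton] at h1
    omega
  have ne2 : b.1 ≠ b'.1 := by
    intro e
    rw [e] at h2
    have t2 := hr.insert_le b'.1 ∅
    rw [hr.empty] at t2
    have t3 : insert b'.1 (∅ : Finset α) = {b'.1} := rfl
    rw [t3] at t2
    rw [pair_eq_singleton] at h2
    omega
  have s1 := hr.insert_le z.1 C
  have s2 := hr.insert_le b.1 (insert z.1 C)
  have s3 := hr.insert_le a.1 (insert b.1 (insert z.1 C))
  have m5 : z.1 ∈ M.E := (Cls_mem (show rkFn M (insert z.1 C) = rkFn M C + 1 by omega)).1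
  have ne3 : a.1 ≠ b.1 := by
    intro e
    rw [e, insert_idem] at h9
    omega
  have ne4 : z.1 ≠ a.1 := by
    intro e
    have e2 : insert a.1 (insert b.1 (insert z.1 C)) = insert b.1 (insert z.1 C) := by
      rw [insert_eq_of_mem]
      rw [e]
      exact mem_insert_of_mem (mem_insert_self _ _)
    rw [e2] at h9
    omega
  have ne5 : z.1 ≠ b.1 := by
    intro e
    have e2 : insert b.1 (insert z.1 C) = insert z.1 C := by
      rw [e, insert_idem]
    rw [e2] at h9
    have := hr.insert_le a.1 (insert z.1 C)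
    omega
  refine h ⟨(C₀ : Set α), a.1, a'.1, b.1, b'.1, z.1, ne1, ne2, ne3, ne4, ne5, ?_, ?_, ?_⟩
  · refine Cls_circ hCE ne1 ?_ ?_ ?_
    · rw [ins _ m1, k0, h3]
    · rw [ins _ m2, k0, h4]
    · rw [ins2 _ m1 _ m2, k0, h5]
  · refine Cls_circ hCE ne2 ?_ ?_ ?_
    · rw [ins _ m3, k0, h6]
    · rw [ins _ m4, k0, h7]
    · rw [ins2 _ m3 _ m4, k0, h8]
  · have hS : (({a.1, b.1, z.1} : Finset α) : Set α) ⊆ M.E := by
      intro w hw
      simp only [coe_insert, coe_singleton, Set.mem_insert_iff, Set.mem_singleton_iff] at hw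
      rcases hw with rfl | rfl | rfl
      · exact m1
      · exact m3
      · exact m5
    have e : C ∪ {a.1, b.1, z.1} = insert a.1 (insert b.1 (insert z.1 C)) := by
      ext x
      simp only [mem_union, mem_insert, mem_singleton]
      tauto
    have hk := key _ hS
    rw [e, h9, ← k0] at hk
    have hcard : ({a.1, b.1, z.1} : Finset α).card = 3 := by
      rw [card_eq_three]
      exact ⟨a.1, b.1, z.1, ne3, ne4.symm, ne5.symm, rfl⟩
    have hdis : Disjoint C₀ {a.1, b.1, z.1} := by
      rw [Finset.disjoint_left]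
      intro x hx hx'
      have hx2 := (mem_filter.1 hx).1
      simp only [mem_insert, mem_singleton] at hx'
      rcases hx' with rfl | rfl | rfl
      · exact (Cls_mem h3).2 hx2
      · exact (Cls_mem h6).2 hx2
      · exact (Cls_mem (show rkFn M (insert z.1 C) = rkFn M C + 1 by omega)).2 hx2
    have k := (Cls_indep hdis hCE hS).2 (by rw [hk, hcard])
    rw [coe_insert, coe_insert, coe_singleton] at k
    exact k

end

/-- Assembly: if all strict systems with `NTP` have one class then the toric ideal of `M` is generated by quadrics whenever `M` or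
its dual has no minor of the form in `PairPair`. -/
theorem final {α : Type*} [DecidableEq α] (h : SWP (α := α × ℕ) NTP) (K : Type*) [Field K]
    (M : Matroid α) [M.Finite] [M.RankPos] (hM : ¬ PairPair M ∨ ¬ PairPair M✶) :
    toricIdeal K M = Ideal.span {f | f ∈ toricIdeal K M ∧ f.IsHomogeneous 2} := by
  refine quadsP her_ntp h K M ?_
  rcases hM with hM | hM
  · exact Or.inl fun E => ntp_of_not hM E
  · exact Or.inr fun E => ntp_of_not hM E

end Pool.Agent.EX91
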