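import Pool.Agent.CF98.Good

/-!
The common block for a closest pair at distance two (note 2925 of MP_e6151a_ag).

`H1`, `H2` is a modular pair of sets that span together, `F = H1 ∩ H2`, `E \ X ⊆ H1 ∪ H2` and `F \ X` is as large as possible.
Given `J1`, `J2` on the two sides, each adjacent to two elements, the bases `X \ {d, e}` and `X \ {d', e'}` share a block.
-/

set_option autoImplicit false

namespace Pool.Agent.EX91

open Finset Pool.Agent.DT3 Pool.Agent.CF98

variable {α : Type*} [DecidableEq α] {r : Finset α → ℕ} {E : Finset α} {f : ℕ}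

/-- A set whose span contains that of `J ∪ F`, if it contains `J` and a spanning subset `B` of `F`. -/
private theorem Glue_sp (hr : RankFn r) {J F B W : Finset α} (hB : B ⊆ F) (hBr : r B = r F)
    (hJ : J ⊆ W) (hBW : B ⊆ W) : r (W ∪ (J ∪ F)) = r W := by
  have h1 := hr.submod W F
  have h2 : r F ≤ r (W ∩ F) := by
    rw [← hBr]
    exact hr.mono _ _ (subset_inter hBW hB)
  have h3 : W ∪ (J ∪ F) = W ∪ F := by
    rw [← union_assoc, union_eq_left.2 hJ]
  have h4 : r W ≤ r (W ∪ F) := hr.mono _ _ subset_union_left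
  rw [h3]
  omega

private theorem Glue_cov (hr : RankFn r) {W H1 H2 K1 K2 : Finset α}
    (hK1 : K1 ⊆ H1) (hK2 : K2 ⊆ H2) (k1 : r K1 = r H1) (k2 : r K2 = r H2)
    (w1 : r (W ∪ K1) = r W) (w2 : r (W ∪ K2) = r W) : r (H1 ∪ H2) ≤ r W := by
  have g1 : r (W ∪ H1) = r W := by
    have s1 := hr.submod (W ∪ K1) H1
    have s2 : r H1 ≤ r ((W ∪ K1) ∩ H1) := by
      rw [← k1]
      exact hr.mono _ _ (subset_inter subset_union_right hK1)
    have s3 : (W ∪ K1) ∪ H1 = W ∪ H1 := by
      rw [union_assoc, union_eq_right.2 hK1]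
    rw [s3] at s1
    have s4 : r W ≤ r (W ∪ H1) := hr.mono _ _ subset_union_left
    omega
  have g2 : r (W ∪ H2) = r W := by
    have s1 := hr.submod (W ∪ K2) H2
    have s2 : r H2 ≤ r ((W ∪ K2) ∩ H2) := by
      rw [← k2]
      exact hr.mono _ _ (subset_inter subset_union_right hK2)
    have s3 : (W ∪ K2) ∪ H2 = W ∪ H2 := by
      rw [union_assoc, union_eq_right.2 hK2]
    rw [s3] at s1
    have s4 : r W ≤ r (W ∪ H2) := hr.mono _ _ subset_union_left
    omega
  have t1 := hr.submod (W ∪ H1) (W ∪ H2)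
  have t2 : r W ≤ r ((W ∪ H1) ∩ (W ∪ H2)) := hr.mono _ _ (subset_inter subset_union_left subset_union_left)
  have t3 : r (H1 ∪ H2) ≤ r ((W ∪ H1) ∪ (W ∪ H2)) := by
    refine hr.mono _ _ ?_
    exact union_subset_union subset_union_right subset_union_right
  omega

/-- The common block for a closest pair at distance two. -/
theorem glue (hE : Env r E f) {H1 H2 F X J1 J2 : Finset α} {d d' e e' : α}
    (h1 : H1 ⊆ E) (h2 : H2 ⊆ E) (hFd : F = H1 ∩ H2)
    (hm : r H1 + r H2 = f + r F) (hu : r (H1 ∪ H2) = f) (hX : X ⊆ E)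
    (hF : (F \ X).card = 2 * r F)
    (hs1 : ((H1 \ F) \ X).card + 1 + 2 * r F = 2 * r H1)
    (hs2 : ((H2 \ F) \ X).card + 1 + 2 * r F = 2 * r H2)
    (hy : ∀ Y ⊆ E, (Y \ X).card ≤ 2 * r Y)
    (a1 : J1 ⊆ (H1 \ F) \ X) (a2 : J1.card + 1 + r F = r H1) (a3 : r (((H1 \ F) \ X) \ J1 ∪ F) = r H1)
    (b1 : J2 ⊆ (H2 \ F) \ X) (b2 : J2.card + 1 + r F = r H2) (b3 : r (((H2 \ F) \ X) \ J2 ∪ F) = r H2)
    (e1 : e ∈ X) (e2 : e ∈ H1) (e3 : r (insert e (J1 ∪ F)) = r H1)
    (e1' : e' ∈ X) (e2' : e' ∈ H1) (e3' : r (insert e' (J1 ∪ F)) = r H1)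
    (d1 : d ∈ X) (d2 : d ∈ H2) (d3 : r (insert d (J2 ∪ F)) = r H2)
    (d1' : d' ∈ X) (d2' : d' ∈ H2) (d3' : r (insert d' (J2 ∪ F)) = r H2)
    (hA : Bs r f (X \ {d, e})) (hA' : Bs r f (X \ {d', e'})) :
    Stp r E f (X \ {d, e}) (X \ {d', e'}) := by
  have hr := hE.rk
  have hFH1 : F ⊆ H1 := hFd ▸ inter_subset_left
  have hFH2 : F ⊆ H2 := hFd ▸ inter_subset_right
  have hFE : F ⊆ E := hFH1.trans h1
  -- split `F \ X`
  obtain ⟨B, hB, hB1, hB2⟩ := two_parts (r := r) (f := r F) (D := F \ X) hr hF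
    (by
      intro Y hY
      have q1 := hy Y (hY.trans (sdiff_subset.trans hFE))
      have q2 : Y \ X = Y := by
        rw [Finset.sdiff_eq_self_iff_disjoint, disjoint_left]
        intro w hw hw'
        exact (mem_sdiff.1 (hY hw)).2 hw'
      rw [q2] at q1
      exact q1)
    (by
      intro Y hY
      exact hr.mono _ _ (hY.trans sdiff_subset))
  set S1 := (H1 \ F) \ X with hS1
  set S2 := (H2 \ F) \ X with hS2
  set R := (S1 \ J1) ∪ (S2 \ J2) ∪ ((F \ X) \ B) with hR
  -- elementary facts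
  have s1H : S1 ⊆ H1 := sdiff_subset.trans sdiff_subset
  have s2H : S2 ⊆ H2 := sdiff_subset.trans sdiff_subset
  have s1E : S1 ⊆ E := s1H.trans h1
  have s2E : S2 ⊆ E := s2H.trans h2
  have hS1F : ∀ w ∈ S1, w ∉ F := fun w hw => (mem_sdiff.1 (mem_sdiff.1 hw).1).2
  have hS2F : ∀ w ∈ S2, w ∉ F := fun w hw => (mem_sdiff.1 (mem_sdiff.1 hw).1).2
  have hS1X : ∀ w ∈ S1, w ∉ X := fun w hw => (mem_sdiff.1 hw).2
  have hS2X : ∀ w ∈ S2, w ∉ X := fun w hw => (mem_sdiff.1 hw).2
  have hS12 : ∀ w ∈ S1, w ∉ S2 := by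
    intro w hw hw'
    exact hS1F w hw (hFd ▸ mem_inter.2 ⟨s1H hw, s2H hw'⟩)
  have hRE : R ⊆ E := by
    refine union_subset (union_subset (sdiff_subset.trans s1E) (sdiff_subset.trans s2E)) ?_
    exact sdiff_subset.trans (sdiff_subset.trans hFE)
  have hRX : ∀ w ∈ R, w ∉ X := by
    intro w hw
    rcases mem_union.1 hw with h | h
    · rcases mem_union.1 h with h | h
      · exact hS1X w (mem_sdiff.1 h).1
      · exact hS2X w (mem_sdiff.1 h).1
    · exact (mem_sdiff.1 (mem_sdiff.1 h).1).2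
  have hdis : ∀ Y ⊆ X, Disjoint Y R := by
    intro Y hY
    rw [disjoint_left]
    intro w hw hw'
    exact hRX w hw' (hY hw)
  have hcR : R.card = f := by
    rw [hR, card_union_of_disjoint, card_union_of_disjoint, card_sdiff_of_subset a1,
      card_sdiff_of_subset b1, card_sdiff_of_subset hB, hF, hB1.1]
    · omega
    · rw [disjoint_left]
      intro w hw hw'
      exact hS12 w (mem_sdiff.1 hw).1 (mem_sdiff.1 hw').1
    · rw [disjoint_left]
      intro w hw hw'
      have hwF : w ∈ F := (mem_sdiff.1 (mem_sdiff.1 hw').1).1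
      rcases mem_union.1 hw with h | h
      · exact hS1F w (mem_sdiff.1 h).1 hwF
      · exact hS2F w (mem_sdiff.1 h).1 hwF
  have hle : ∀ W ⊆ E, r W ≤ f := by
    intro W hW
    rw [← hE.rank]
    exact hr.mono _ _ hW
  have hrR : r R = f := by
    apply le_antisymm (hle R hRE)
    rw [← hu]
    refine Glue_cov hr (K1 := (S1 \ J1) ∪ F) (K2 := (S2 \ J2) ∪ F)
      (union_subset (sdiff_subset.trans s1H) hFH1) (union_subset (sdiff_subset.trans s2H) hFH2) a3 b3
      ?_ ?_
    · exact Glue_sp hr (B := (F \ X) \ B) (sdiff_subset.trans sdiff_subset) hB2.2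
        (subset_union_left.trans subset_union_left) subset_union_right
    · exact Glue_sp hr (B := (F \ X) \ B) (sdiff_subset.trans sdiff_subset) hB2.2
        (subset_union_right.trans subset_union_left) subset_union_right
  have key : ∀ u v : α, u ∈ X → u ∈ H2 → r (insert u (J2 ∪ F)) = r H2 → v ∈ X → v ∈ H1 →
      r (insert v (J1 ∪ F)) = r H1 → Bs r f (X \ {u, v}) → Bs r f (E \ (X \ {u, v} ∪ R)) := by
    intro u v u1 u2 u3 v1 v2 v3 hb
    have hsub : X \ {u, v} ∪ R ⊆ E := union_subset (sdiff_subset.trans hX) hRE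
    have hEX : E \ (X \ {u, v} ∪ R) ⊆ E := sdiff_subset
    constructor
    · rw [card_sdiff_of_subset hsub, card_union_of_disjoint (hdis _ sdiff_subset), hb.1, hcR, hE.card]
      omega
    · set W := E \ (X \ {u, v} ∪ R) with hW
      apply le_antisymm (hle W hEX)
      rw [← hu]
      have m1 : J1 ⊆ W := by
        intro w hw
        have hw1 := a1 hw
        refine mem_sdiff.2 ⟨s1E hw1, ?_⟩
        intro h
        rcases mem_union.1 h with h | h
        · exact hS1X w hw1 (mem_sdiff.1 h).1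
        · rcases mem_union.1 h with h | h
          · rcases mem_union.1 h with h | h
            · exact (mem_sdiff.1 h).2 hw
            · exact hS12 w hw1 (mem_sdiff.1 h).1
          · exact hS1F w hw1 (mem_sdiff.1 (mem_sdiff.1 h).1).1
      have m2 : J2 ⊆ W := by
        intro w hw
        have hw1 := b1 hw
        refine mem_sdiff.2 ⟨s2E hw1, ?_⟩
        intro h
        rcases mem_union.1 h with h | h
        · exact hS2X w hw1 (mem_sdiff.1 h).1
        · rcases mem_union.1 h with h | h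
          · rcases mem_union.1 h with h | h
            · exact hS12 w (mem_sdiff.1 h).1 hw1
            · exact (mem_sdiff.1 h).2 hw
          · exact hS2F w hw1 (mem_sdiff.1 (mem_sdiff.1 h).1).1
      have m3 : B ⊆ W := by
        intro w hw
        have hw1 := hB hw
        have hwF := (mem_sdiff.1 hw1).1
        refine mem_sdiff.2 ⟨hFE hwF, ?_⟩
        intro h
        rcases mem_union.1 h with h | h
        · exact (mem_sdiff.1 hw1).2 (mem_sdiff.1 h).1
        · rcases mem_union.1 h with h | h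
          · rcases mem_union.1 h with h | h
            · exact hS1F w (mem_sdiff.1 h).1 hwF
            · exact hS2F w (mem_sdiff.1 h).1 hwF
          · exact (mem_sdiff.1 h).2 hw
      have m4 : u ∈ W := by
        refine mem_sdiff.2 ⟨hX u1, ?_⟩
        intro h
        rcases mem_union.1 h with h | h
        · exact (mem_sdiff.1 h).2 (mem_insert_self _ _)
        · exact hRX u h u1
      have m5 : v ∈ W := by
        refine mem_sdiff.2 ⟨hX v1, ?_⟩
        intro h
        rcases mem_union.1 h with h | h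
        · exact (mem_sdiff.1 h).2 (mem_insert_of_mem (mem_singleton_self _))
        · exact hRX v h v1
      refine Glue_cov hr (K1 := insert v (J1 ∪ F)) (K2 := insert u (J2 ∪ F)) ?_ ?_ v3 u3 ?_ ?_
      · exact insert_subset v2 (union_subset (a1.trans s1H) hFH1)
      · exact insert_subset u2 (union_subset (b1.trans s2H) hFH2)
      · rw [union_insert, insert_eq_of_mem (mem_union_left _ m5)]
        exact Glue_sp hr (B := B) (hB.trans sdiff_subset) hB1.2 m1 m3
      · rw [union_insert, insert_eq_of_mem (mem_union_left _ m4)]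
        exact Glue_sp hr (B := B) (hB.trans sdiff_subset) hB1.2 m2 m3
  refine ⟨sdiff_subset.trans hX, sdiff_subset.trans hX, hA, hA', R, hRE, hdis _ sdiff_subset,
    hdis _ sdiff_subset, ⟨hcR, hrR⟩, ?_, ?_⟩
  · exact key d e d1 d2 d3 e1 e2 e3 hA
  · exact key d' e' d1' d2' d3' e1' e2' e3' hA'

end Pool.Agent.EX91
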